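import Pool.Agent.H20.UN.Defs
import Pool.Agent.H20.UT.Const

/-!
Project UT, X19: algebraic independence over the prime field and over an algebraic extension
(helper20).
-/

set_option autoImplicit false
set_option maxHeartbeats 400000

open AlgebraicGeometry CategoryTheory Pool.Agent.K1 Pool.Agent.KM Pool.Agent.H19.UT
open Pool.Agent.H20.UT

namespace Pool.Agent.H20.UN

/-- Evaluation of polynomials in a valuation ring. -/
theorem eval_valN {n : ℕ} {R L : Type} [CommRing R] [Field L] (W : ValuationSubring L) (f : R →+* W)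
    (z : Fin n → W) (P : MvPolynomial (Fin n) R) :
    P.eval₂ ((W.subtype).comp f) (fun i => ((z i : W) : L)) =
      ((P.eval₂ f z : W) : L) := by
  change _ = W.subtype (P.eval₂ f z)
  rw [MvPolynomial.eval₂_comp_left]
  rfl

theorem nonunits_iff_residue {L : Type} [Field L] (W : ValuationSubring L) (a : W) :
    (a : L) ∈ W.nonunits ↔ IsLocalRing.residue W a = 0 := by
  rw [IsLocalRing.residue_eq_zero_iff]
  rw [ValuationSubring.mem_nonunits_iff_exists_mem_maximalIdeal]
  constructor
  · rintro ⟨_, h⟩; exact h
  · intro h; exact ⟨a.2, h⟩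

theorem big_trN : SpBigTrN := by
  intro p _ n k L _ _ _ _ _ W ⟨z, hz⟩
  have hzW : ∀ i, z i ∈ W := by
    intro i
    have h := (hz (MvPolynomial.X i) (by rw [MvPolynomial.map_X]; exact MvPolynomial.X_ne_zero i)).1
    rwa [MvPolynomial.eval₂_X] at h
  have hk : ∀ c : k, algebraMap k L c ∈ W := fun c => const_mem p k L (algebraMap k L) W c
  let fk : k →+* W :=
    { toFun := fun c => ⟨algebraMap k L c, hk c⟩
      map_one' := Subtype.ext (map_one _)
      map_mul' := fun a b => Subtype.ext (map_mul _ a b)
      map_zero' := Subtype.ext (map_zero _)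
      map_add' := fun a b => Subtype.ext (map_add _ a b) }
  let zW : Fin n → W := fun i => ⟨z i, hzW i⟩
  let g : k →+* IsLocalRing.ResidueField W := (IsLocalRing.residue W).comp fk
  let _ : Algebra k (IsLocalRing.ResidueField W) := g.toAlgebra
  let _ : Algebra (ZMod p) (IsLocalRing.ResidueField W) := (g.comp (algebraMap (ZMod p) k)).toAlgebra
  have _ : IsScalarTower (ZMod p) k (IsLocalRing.ResidueField W) :=
    IsScalarTower.of_algebraMap_eq fun _ => rfl
  let zb : Fin n → IsLocalRing.ResidueField W := fun i => IsLocalRing.residue W (zW i)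
  have h1 : AlgebraicIndependent (ZMod p) zb := by
    rw [algebraicIndependent_iff]
    intro P hP
    by_contra hne
    obtain ⟨Q, rfl⟩ := MvPolynomial.map_surjective (Int.castRingHom (ZMod p))
      ZMod.intCast_surjective P
    obtain ⟨_, h2⟩ := hz Q hne
    apply h2
    have h3 := eval_valN W (Int.castRingHom W) zW Q
    have h4 : (W.subtype).comp (Int.castRingHom W) = Int.castRingHom L := RingHom.ext_int _ _
    rw [h4] at h3
    have h5 : (fun i => ((zW i : W) : L)) = z := rfl
    rw [h5] at h3
    rw [h3, nonunits_iff_residue, MvPolynomial.eval₂_comp_left]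
    rw [MvPolynomial.aeval_def, MvPolynomial.eval₂_map] at hP
    rw [← hP]
    congr 1
    exact RingHom.ext_int _ _
  have h2 : AlgebraicIndependent k zb := h1.extendScalars k
  refine ⟨z, fun P hP => ?_⟩
  have h3 := eval_valN W fk zW P
  have h4 : (W.subtype).comp fk = algebraMap k L := RingHom.ext fun _ => rfl
  have h5 : (fun i => ((zW i : W) : L)) = z := rfl
  rw [h4, h5] at h3
  rw [MvPolynomial.aeval_def, h3]
  refine ⟨SetLike.coe_mem _, fun h6 => hP ?_⟩
  rw [nonunits_iff_residue, MvPolynomial.eval₂_comp_left] at h6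
  exact (algebraicIndependent_iff.1 h2) P h6

end Pool.Agent.H20.UN
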