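import Pool.Agent.H20.UN.Defs
import Pool.Agent.H20.UT.Core

/-!
Project UN: the field theoretic part of the final theorem (helper20).
-/

set_option autoImplicit false
set_option maxHeartbeats 400000

open Pool.Agent.K1 Pool.Agent.KM Pool.Agent.H19.UT Pool.Agent.H20.UT

namespace Pool.Agent.H20.UN

theorem fgN_of (k K : Type) [Field k] [Field K] [Algebra k K] [Algebra.EssFiniteType k K]
    (h : Algebra.trdeg k K = 2) : FgN 2 k K where
  fg := (fg_of k K h).fg
  dim := (fg_of k K h).dim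

theorem mf_ess (m : ℕ) (k K : Type) [Field k] [Field K] [Algebra k K]
    [Algebra.EssFiniteType k K] :
    Algebra.EssFiniteType k (FractionRing (MvPolynomial (Fin m) K)) := by
  have h1 : Algebra.EssFiniteType K (MvPolynomial (Fin m) K) := inferInstance
  have h2 : Algebra.EssFiniteType (MvPolynomial (Fin m) K)
      (FractionRing (MvPolynomial (Fin m) K)) :=
    Algebra.EssFiniteType.of_isLocalization _ (nonZeroDivisors (MvPolynomial (Fin m) K))
  have h3 : Algebra.EssFiniteType K (FractionRing (MvPolynomial (Fin m) K)) :=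
    Algebra.EssFiniteType.comp K (MvPolynomial (Fin m) K) _
  exact Algebra.EssFiniteType.comp k K _

theorem mf_trdeg (m : ℕ) (k K : Type) [Field k] [Field K] [Algebra k K]
    (h : Algebra.trdeg k K = 2) :
    Algebra.trdeg k (FractionRing (MvPolynomial (Fin m) K)) = ((m + 2 : ℕ) : Cardinal) := by
  have h1 := trdeg_add_eq K (MvPolynomial (Fin m) K)
    (A := FractionRing (MvPolynomial (Fin m) K))
  rw [MvPolynomial.trdeg_of_isDomain] at h1
  have h2 : Algebra.IsAlgebraic (MvPolynomial (Fin m) K)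
      (FractionRing (MvPolynomial (Fin m) K)) :=
    IsLocalization.isAlgebraic _ (nonZeroDivisors (MvPolynomial (Fin m) K))
  rw [trdeg_eq_zero, add_zero] at h1
  rw [← trdeg_add_eq k K (A := FractionRing (MvPolynomial (Fin m) K)), ← h1, h]
  simp only [Cardinal.mk_fin, Cardinal.lift_natCast]
  push_cast
  ring

theorem coreN (hNorm : SpNormDown) (hBT : SpBigTrN) (hDisc : SpDiscN)
    (p : ℕ) [Fact p.Prime] (n : ℕ) (k L M : Type) [Field k] [Field L] [Field M]
    [Algebra (ZMod p) k] [Algebra.IsAlgebraic (ZMod p) k] [Algebra k L]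
    [Algebra.EssFiniteType k L] (hL : Algebra.trdeg k L = ((n + 1 : ℕ) : Cardinal))
    (hThm : ThmK n k L)
    [Algebra (ZMod p) M] (hM : Algebra.trdeg (ZMod p) M = ((n + 1 : ℕ) : Cardinal))
    (ι : M →+* L) (d : Dat M) :
    ∃ (N : ℕ) (β : Sy M), 0 < N ∧ ∀ D : ValuationSubring M, IsDiscV D → BigN n p D → ∀ b : Sy M,
      TorsV D (d.val D * (sm D b)⁻¹) → TorsV D (sm D (β - N • b)) := by
  obtain ⟨N, β', hN, hβ'⟩ := hThm (d.map ι)
  let _ : Algebra M L := ι.toAlgebra
  let _ : Algebra (ZMod p) L := (ι.comp (algebraMap (ZMod p) M)).toAlgebra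
  have halg : Algebra.IsAlgebraic M L :=
    alg_of_trdeg p M L (n + 1) hM (by rw [trdeg_prime p k L]; exact hL)
  obtain ⟨E, hE, βE, hβE⟩ := sy_finite (M := M) β'
  have hcharM : CharP M p := charP_of_injective_algebraMap (algebraMap (ZMod p) M).injective p
  obtain ⟨β₀, l, hn, h0⟩ := hNorm p M E βE
  refine ⟨N * l, β₀, Nat.mul_pos hN hn, fun D hD hBig b hb => h0 D hD b N fun D' hD' hD'D => ?_⟩
  obtain ⟨W, hW⟩ := f07_exists (M := E) (N := L) D'
  have hWD : W.comap ι = D := by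
    rw [← hD'D, ← hW]
    rfl
  obtain ⟨hWd, hWb⟩ := hDisc p n k M L hL ι W (hWD ▸ hD) (hWD ▸ hBig)
  have h2 := hβ' W hWd (hBT p n k L W hWb)
  subst hW
  refine (torsV_sm_map_iff (algebraMap E L) hWd _ hD').1 ?_
  rw [map_sub, hβE, map_nsmul, sy_map_map]
  have h3 : (algebraMap E L).comp (algebraMap M E) = ι := rfl
  rw [h3, sm_sub, sm_nsmul]
  -- the value of the pulled back data
  have h4 : TorsV W (sm W (Sy.map ι (d.β (d.idx D) - b))) := by
    refine torsV_sm_map ι hWd _ fun _ => ?_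
    rw [hWD, sm_sub]
    exact hb
  have h5 := val_tors hWd (d.map ι) (d.idx D) (fun a ha => by
    classical
    obtain ⟨c, hc, rfl⟩ := Finset.mem_image.1 ha
    have h6 := d.idx_spec D c hc
    rw [← hWD] at h6
    exact h6)
  have h6 : (d.map ι).β (d.idx D) = Sy.map ι (d.β (d.idx D)) := rfl
  rw [h6] at h5
  rw [map_sub, sm_sub] at h4
  have h7 := torsV_mul h2 (torsV_pow (torsV_mul h5 h4) N)
  have h8 : sm W β' * ((d.map ι).val W ^ N)⁻¹ * ((d.map ι).val W *
      (sm W (Sy.map ι (d.β (d.idx D))))⁻¹ * (sm W (Sy.map ι (d.β (d.idx D))) *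
        (sm W (Sy.map ι b))⁻¹)) ^ N = sm W β' * (sm W (Sy.map ι b) ^ N)⁻¹ := by
    have h9 : (d.map ι).val W * (sm W (Sy.map ι (d.β (d.idx D))))⁻¹ *
        (sm W (Sy.map ι (d.β (d.idx D))) * (sm W (Sy.map ι b))⁻¹) =
        (d.map ι).val W * (sm W (Sy.map ι b))⁻¹ := by group
    rw [h9, mul_pow, inv_pow, ← mul_assoc, mul_assoc (sm W β'), inv_mul_cancel, mul_one]
  rw [h8] at h7
  exact h7

end Pool.Agent.H20.UN
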