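import Pool.Agent.H20.UT.XSpec
import Pool.Agent.H20.UT.Stmt
import Pool.Agent.H19.UN.SpN

/-!
Project UN, scheme side: statements (helper20).
-/

set_option autoImplicit false
set_option maxHeartbeats 400000

open AlgebraicGeometry CategoryTheory Pool.Agent.K1 Pool.Agent.KM Pool.Agent.H19.UT
open Pool.Agent.H20.UT

namespace Pool.Agent.H20.UN

/-- The residue field of `D` contains `n` elements which are algebraically independent over the
field with `p` elements. -/
def BigN (n p : ℕ) {L : Type} [Field L] (D : ValuationSubring L) : Prop :=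
  ∃ z : Fin n → L, ∀ P : MvPolynomial (Fin n) ℤ, P.map (Int.castRingHom (ZMod p)) ≠ 0 →
    P.eval₂ (Int.castRingHom L) z ∈ D ∧ P.eval₂ (Int.castRingHom L) z ∉ D.nonunits

/-- The residue field at a point of codimension one of a scheme of dimension `n + 1`. -/
def SpBigN : Prop := ∀ (p : ℕ) [Fact p.Prime] (k : Type) [Field k] [Algebra (ZMod p) k]
  [Algebra.IsAlgebraic (ZMod p) k] (m n : ℕ) (X : Scheme.{0}) [IsIntegral X] [IsNoetherian X]
  (_ : Embed k X m), (∀ x : X, Order.coheight x ≤ ((n + 1 : ℕ) : ℕ∞)) →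
  (∃ x : X, Order.coheight x = ((n + 1 : ℕ) : ℕ∞)) →
  ∀ (x : PointOne X) (D), IsStk x.1 D → BigN n p D

/-- Valuation rings above a discrete valuation ring with big residue field are discrete, in
fields of transcendence degree `n + 1` over an algebraic extension of the prime field. -/
def SpDiscN : Prop := ∀ (p : ℕ) [Fact p.Prime] (n : ℕ) (k K L : Type) [Field k] [Field K]
  [Field L] [Algebra (ZMod p) k] [Algebra.IsAlgebraic (ZMod p) k] [Algebra k L]
  [Algebra.EssFiniteType k L], Algebra.trdeg k L = ((n + 1 : ℕ) : Cardinal) →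
  ∀ (φ : K →+* L) (W : ValuationSubring L), IsDiscV (W.comap φ) →
  BigN n p (W.comap φ) → IsDiscV W ∧ BigN n p W

/-- Algebraic independence over the prime field and over an algebraic extension. -/
def SpBigTrN : Prop := ∀ (p : ℕ) [Fact p.Prime] (n : ℕ) (k L : Type) [Field k] [Field L]
  [Algebra (ZMod p) k] [Algebra.IsAlgebraic (ZMod p) k] [Algebra k L] (W : ValuationSubring L),
  BigN n p W → TrN n k W

/-- The final statement. -/
def SpFinalN : Prop := ∀ (p : ℕ) [Fact p.Prime] (F : Type) [Field F] [Algebra (ZMod p) F]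
  [Algebra.IsAlgebraic (ZMod p) F] (n m : ℕ) (X : Scheme.{0}) [IsIntegral X] [IsNoetherian X]
  (i : X ⟶ PN F n) [IsClosedImmersion i], (∀ x : X, IsRegularLocalRing (X.presheaf.stalk x)) →
  (∀ x : X, Order.coheight x ≤ ((m + 2 : ℕ) : ℕ∞)) →
  (∃ x : X, Order.coheight x = ((m + 2 : ℕ) : ℕ∞)) →
  ∀ (k : Type) [Field k] [IsAlgClosed k] [Algebra (ZMod p) k] [Algebra.IsAlgebraic (ZMod p) k]
  (l : ℕ) (S : Scheme.{0}) [IsIntegral S] [IsNoetherian S] (j : S ⟶ PN k l) [IsClosedImmersion j],
  (∀ x : S, IsRegularLocalRing (S.presheaf.stalk x)) → (∀ x : S, Order.coheight x ≤ 2) →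
  (∃ x : S, Order.coheight x = 2) →
  ∀ (ι : X.functionField →+* FractionRing (MvPolynomial (Fin m) S.functionField))
  (β : X → MilnorK X.functionField 2), IsSection2 β → ∀ ξ : SChain X,
  (∀ x : PointOne X, IsTameK2 x.1 (β x.1) (Additive.toMul (ξ x))) →
  ∃ N : ℕ, 0 < N ∧ N • ξ ∈ tameChains X

end Pool.Agent.H20.UN
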