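import Pool.Agent.H20.UN.CoreN
import Pool.Agent.K1.Embed

/-!
Project UN: the final assembly (helper20).
-/

set_option autoImplicit false
set_option maxHeartbeats 400000

open AlgebraicGeometry CategoryTheory Pool.Agent.K1 Pool.Agent.KM Pool.Agent.H19.UT
open Pool.Agent.H20.UT

namespace Pool.Agent.H20.UN

theorem final_ofN (hThm1 : SpThm1) (hTow : SpTower) (hNorm : SpNormDown) (hBT : SpBigTrN)
    (hDisc : SpDiscN) (hModel : SpModelOf) (hTD : SpTrdeg) (hDat : SpDat) (hStk : SpStk)
    (hBig : SpBigN) (hEnd : SpEnd) : SpFinalN := by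
  intro p _ F _ _ _ n m X _ _ i _ hreg hdim hdim' k _ _ _ _ l S _ _ j _ hregS hdimS hdimS'
    ι β hβ ξ hξ
  obtain ⟨EX⟩ := exists_embed F n X i
  obtain ⟨ES⟩ := exists_embed k l S j
  let _ : Algebra F X.functionField := EX.kf.toAlgebra
  let _ : Algebra k S.functionField := ES.kf.toAlgebra
  obtain ⟨Sf⟩ := hModel p k l S j ES hregS hdimS hdimS'
  have hS := hTD p k l 2 S ES hdimS (by exact_mod_cast hdimS')
  have hX := hTD p F n (m + 2) X EX hdim hdim'
  have hess : Algebra.EssFiniteType k S.functionField := hS.2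
  have hS2 : Algebra.trdeg k S.functionField = 2 := by exact_mod_cast hS.1
  let _ : Algebra (ZMod p) X.functionField :=
    ((algebraMap F X.functionField).comp (algebraMap (ZMod p) F)).toAlgebra
  have hM : Algebra.trdeg (ZMod p) X.functionField = ((m + 2 : ℕ) : Cardinal) := by
    rw [trdeg_prime p F X.functionField]
    exact hX.1
  have hess' : Algebra.EssFiniteType k
      (FractionRing (MvPolynomial (Fin m) S.functionField)) := mf_ess m k S.functionField
  have hThm : ThmK (m + 1) k (FractionRing (MvPolynomial (Fin m) S.functionField)) :=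
    hTow p k S.functionField (base_of p k) (fgN_of k S.functionField hS2)
      (hThm1 p k S.functionField (base_of p k) Sf) m
  obtain ⟨d, hd⟩ := hDat p F n X EX β hβ
  obtain ⟨N, γ, hN, h1⟩ := coreN hNorm hBT hDisc p (m + 1) k
    (FractionRing (MvPolynomial (Fin m) S.functionField)) X.functionField
    (mf_trdeg m k S.functionField hS2) hThm hM ι d
  refine hEnd X hreg β ξ hξ N γ hN fun x D hD b hb => ?_
  obtain ⟨hDd, hDc, _⟩ := (hStk X x.1 x.2 (hreg x.1)).2 D hD
  exact h1 D hDd (hBig p F n (m + 1) X EX hdim hdim' x D hD) b (hd D hDd x.1 hDc b hb)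

end Pool.Agent.H20.UN
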