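import Pool.Agent.H20.UN.FinalN
import Pool.Agent.H20.UN.DiscN
import Pool.Agent.H20.UN.BigTrN
import Pool.Agent.H20.UN.BigSN
import Pool.Agent.H20.UT.XAll

/-!
Project UN: the scheme side (helper20).
-/

set_option autoImplicit false
set_option maxHeartbeats 400000

open Pool.Agent.K1 Pool.Agent.KM Pool.Agent.H19.UT Pool.Agent.H20.UT

namespace Pool.Agent.H20.UN

/-- The final theorem, from the theorem for rational function fields and norms. -/
theorem final_xN (hThm1 : SpThm1) (hTow : SpTower) (hNorm : SpNormDown) : SpFinalN :=
  final_ofN hThm1 hTow hNorm big_trN (disc_aboveN const_mem) model_of trdeg_facts dat_s stk_facts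
    big_stkN end_s

end Pool.Agent.H20.UN
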