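import Pool.Agent.H20.UN.XAllN
import Pool.Agent.H19.UN.AffN
import Pool.Agent.H19.UN.AllDivN
import Pool.Agent.H19.UN.CTN
import Pool.Agent.H19.UN.ChartP
import Pool.Agent.H19.UN.CmpN
import Pool.Agent.H19.UN.DatMk
import Pool.Agent.H19.UN.DiscN
import Pool.Agent.H19.UN.Down
import Pool.Agent.H19.UN.EvalG
import Pool.Agent.H19.UN.Fg2N
import Pool.Agent.H19.UN.FgExtN
import Pool.Agent.H19.UN.FgStep
import Pool.Agent.H19.UN.GaussEx
import Pool.Agent.H19.UN.IsoN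
import Pool.Agent.H19.UN.RA1N
import Pool.Agent.H19.UN.RBN
import Pool.Agent.H19.UN.RCurN
import Pool.Agent.H19.UN.RICN
import Pool.Agent.H19.UN.RPreN
import Pool.Agent.H19.UN.Red
import Pool.Agent.H19.UN.RelSN
import Pool.Agent.H19.UN.ResTrN
import Pool.Agent.H19.UN.Step
import Pool.Agent.H19.UN.Thm1
import Pool.Agent.H19.UN.TowC
import Pool.Agent.H19.UN.Tower
import Pool.Agent.H19.UN.Xch
import Pool.Agent.H19.UT.BaseF
import Pool.Agent.H19.UT.Basic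
import Pool.Agent.H19.UT.Bc
import Pool.Agent.H19.UT.BlowF
import Pool.Agent.H19.UT.BlowX
import Pool.Agent.H19.UT.CDesc
import Pool.Agent.H19.UT.CE
import Pool.Agent.H19.UT.CStep
import Pool.Agent.H19.UT.ChartF
import Pool.Agent.H19.UT.ClF
import Pool.Agent.H19.UT.Comp
import Pool.Agent.H19.UT.Const
import Pool.Agent.H19.UT.Coord
import Pool.Agent.H19.UT.CycF
import Pool.Agent.H19.UT.CycK
import Pool.Agent.H19.UT.CycleAll
import Pool.Agent.H19.UT.DegF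
import Pool.Agent.H19.UT.Disc2
import Pool.Agent.H19.UT.ExtDisc
import Pool.Agent.H19.UT.ExtQ
import Pool.Agent.H19.UT.ExtW
import Pool.Agent.H19.UT.FgExt
import Pool.Agent.H19.UT.Gauss
import Pool.Agent.H19.UT.GaussAlg
import Pool.Agent.H19.UT.GaussD
import Pool.Agent.H19.UT.GaussRes
import Pool.Agent.H19.UT.Gf
import Pool.Agent.H19.UT.HMap
import Pool.Agent.H19.UT.Hor
import Pool.Agent.H19.UT.Inf
import Pool.Agent.H19.UT.KPl
import Pool.Agent.H19.UT.LocF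
import Pool.Agent.H19.UT.Mid
import Pool.Agent.H19.UT.Norm
import Pool.Agent.H19.UT.NormDown
import Pool.Agent.H19.UT.NormPoly
import Pool.Agent.H19.UT.NormSimple
import Pool.Agent.H19.UT.NotCong
import Pool.Agent.H19.UT.OnF
import Pool.Agent.H19.UT.OrdF
import Pool.Agent.H19.UT.Pseudo
import Pool.Agent.H19.UT.Psi
import Pool.Agent.H19.UT.RA0
import Pool.Agent.H19.UT.RAdj
import Pool.Agent.H19.UT.RDvr
import Pool.Agent.H19.UT.RFac
import Pool.Agent.H19.UT.RFin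
import Pool.Agent.H19.UT.RIC
import Pool.Agent.H19.UT.RInd
import Pool.Agent.H19.UT.RInt
import Pool.Agent.H19.UT.RLift
import Pool.Agent.H19.UT.RMin
import Pool.Agent.H19.UT.RReg
import Pool.Agent.H19.UT.RTr
import Pool.Agent.H19.UT.RelK
import Pool.Agent.H19.UT.ResVal
import Pool.Agent.H19.UT.RingP
import Pool.Agent.H19.UT.RingPD
import Pool.Agent.H19.UT.RingPX
import Pool.Agent.H19.UT.RingT
import Pool.Agent.H19.UT.RingTD
import Pool.Agent.H19.UT.St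
import Pool.Agent.H19.UT.Tate
import Pool.Agent.H19.UT.WEx

/-!
Project UN: all the blocks together (helper20).
-/

set_option autoImplicit false
set_option maxHeartbeats 400000

open AlgebraicGeometry CategoryTheory Pool.Agent.K1 Pool.Agent.KM Pool.Agent.H19.UT

namespace Pool.Agent.H19.UT

theorem zn_SpSm : SpSm :=
  sp_sm

theorem zn_SpOnFacts : SpOnFacts :=
  on_facts

theorem zn_SpOD : SpOD :=
  sp_od

theorem zn_SpFin : SpFin :=
  sp_fin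

theorem zn_SpBase : SpBase :=
  base_cycle zn_SpSm zn_SpOnFacts zn_SpOD

theorem zn_SpDl : SpDl :=
  sp_dl

theorem zn_SpChart : SpChart :=
  chart_in zn_SpDl

theorem zn_SpBlowX : SpBlowX :=
  blow_exists zn_SpOnFacts

theorem zn_SpBlow : SpBlow :=
  blow_generic zn_SpBlowX zn_SpOnFacts

theorem zn_SpOrd : SpOrd :=
  ord_facts

theorem zn_SpE : SpE :=
  sp_e

theorem zn_SpLoc : SpLoc :=
  loc_facts

theorem zn_SpCl : SpCl :=
  cl_facts zn_SpOnFacts zn_SpE zn_SpLoc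

theorem zn_SpOE : SpOE :=
  sp_oe

theorem zn_SpSum : SpSum :=
  sp_sum

theorem zn_SpDlLt : SpDlLt :=
  sp_dlLt

theorem zn_SpDeg : SpDeg :=
  deg_facts

theorem zn_SpCycle : SpCycle :=
  cycle_all zn_SpSm zn_SpOnFacts zn_SpOD zn_SpFin zn_SpBase zn_SpDl zn_SpChart zn_SpBlow zn_SpOrd
    zn_SpE zn_SpLoc zn_SpCl zn_SpOE zn_SpSum zn_SpDlLt zn_SpDeg

theorem zn_SpCStep : SpCStep :=
  sp_cstep zn_SpBlowX zn_SpOnFacts zn_SpE zn_SpLoc

theorem zn_SpCE : SpCE :=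
  sp_ce zn_SpOnFacts zn_SpOD zn_SpE zn_SpLoc zn_SpCl zn_SpOE

theorem zn_SpCDesc : SpCDesc :=
  sp_cdesc zn_SpCStep zn_SpCE

theorem zn_SpThm1 : SpThm1 :=
  sp_thm1 zn_SpCycle zn_SpFin zn_SpCDesc

theorem zn_SpIso : SpIso :=
  sp_iso

theorem zn_SpTowC : SpTowC :=
  sp_towC

theorem zn_SpFgStep : SpFgStep :=
  sp_fgStep

theorem zn_SpGauss : SpGauss :=
  sp_gauss

theorem zn_SpHor : SpHor :=
  sp_hor

theorem zn_SpTate : SpTate :=
  sp_tate zn_SpHor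

theorem zn_SpCoord : SpCoord :=
  sp_coord

theorem zn_SpRingP : SpRingP :=
  sp_ringP

theorem zn_SpRingPD : SpRingPD :=
  sp_ringPD zn_SpOnFacts zn_SpOD zn_SpGauss zn_SpRingP

theorem zn_SpRingPX : SpRingPX :=
  sp_ringPX zn_SpOnFacts zn_SpOD zn_SpRingP

theorem zn_SpConst : SpConst :=
  sp_const zn_SpCycle zn_SpOnFacts zn_SpOD zn_SpGauss zn_SpRingP zn_SpRingPD

theorem zn_SpInf : SpInf :=
  sp_inf zn_SpCycle zn_SpOD zn_SpGauss zn_SpCoord zn_SpRingP zn_SpRingPD zn_SpRingPX zn_SpConst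
    zn_SpHor

theorem zn_SpExtQ : SpExtQ :=
  ext_q

theorem zn_SpExtDisc : SpExtDisc :=
  ext_disc

theorem zn_SpKPl : SpKPl :=
  sp_kpl zn_SpExtQ zn_SpExtDisc

theorem zn_SpRingT : SpRingT :=
  sp_ringT

theorem zn_SpRingTD : SpRingTD :=
  sp_ringTD zn_SpOnFacts zn_SpOD zn_SpGauss zn_SpRingT

theorem zn_SpCycK : SpCycK :=
  sp_cycK zn_SpCycle zn_SpFin zn_SpOnFacts zn_SpOD zn_SpGauss zn_SpRingT zn_SpRingTD

theorem zn_SpGf : SpGf :=
  sp_gf zn_SpOnFacts zn_SpConst zn_SpCycK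

theorem zn_SpGaussEx : SpGaussEx :=
  sp_gaussEx

theorem zn_SpEvalG : SpEvalG :=
  sp_evalG

theorem zn_SpRed : SpRed :=
  sp_red zn_SpGauss

theorem zn_SpChartP : SpChartP :=
  sp_chartP

theorem zn_SpDatMk : SpDatMk :=
  sp_datMk

theorem zn_SpDown : SpDown :=
  sp_down zn_SpGauss zn_SpGf zn_SpGaussEx zn_SpEvalG zn_SpRed zn_SpChartP zn_SpDatMk

theorem zn_SpHMap : SpHMap :=
  sp_hmap

theorem zn_SpRTr : SpRTr :=
  sp_rtr

theorem zn_SpRIC : SpRIC :=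
  sp_ric

theorem zn_SpRICN : SpRICN :=
  sp_ricN zn_SpRIC

theorem zn_SpRInd : SpRInd :=
  sp_rind

theorem zn_SpRA0 : SpRA0 :=
  sp_ra0

theorem zn_SpRDvr : SpRDvr :=
  sp_rdvr

theorem zn_SpRMin : SpRMin :=
  sp_rmin

theorem zn_SpRInt : SpRInt :=
  sp_rint

theorem zn_SpRA1N : SpRA1N :=
  sp_ra1N zn_SpRInd zn_SpRA0 zn_SpRDvr zn_SpRMin zn_SpRInt

theorem zn_SpRCurN : SpRCurN :=
  sp_rcurN zn_SpRDvr

theorem zn_SpRLift : SpRLift :=
  sp_rlift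

theorem zn_SpRPreN : SpRPreN :=
  sp_rpreN zn_SpRA1N zn_SpRCurN zn_SpRLift

theorem zn_SpXch : SpXch :=
  sp_xch

theorem zn_SpFg2N : SpFg2N :=
  sp_fg2N

theorem zn_SpRFac : SpRFac :=
  sp_rfac

theorem zn_SpRAdj : SpRAdj :=
  sp_radj

theorem zn_SpRReg : SpRReg :=
  sp_rreg zn_SpRFac zn_SpRAdj

theorem zn_SpRFin : SpRFin :=
  sp_rfin zn_SpOnFacts zn_SpOD

theorem zn_SpRBN : SpRBN :=
  sp_rbN zn_SpRTr zn_SpRICN zn_SpRPreN zn_SpXch zn_SpFg2N zn_SpRReg zn_SpRFin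

theorem zn_SpCmpN : SpCmpN :=
  sp_cmpN zn_SpOnFacts zn_SpOD zn_SpGauss zn_SpCoord zn_SpGf zn_SpRBN

theorem zn_SpAffN : SpAffN :=
  sp_affN zn_SpGauss zn_SpCoord zn_SpGf zn_SpCmpN

theorem zn_SpFgExt : SpFgExt :=
  sp_fgext

theorem zn_SpFgExtN : SpFgExtN :=
  sp_fgextN

theorem zn_SpGaussRes : SpGaussRes :=
  sp_gaussres

theorem zn_SpCTN : SpCTN :=
  sp_ctN zn_SpGauss zn_SpHMap zn_SpAffN zn_SpFgExt zn_SpFgExtN zn_SpGaussRes

theorem zn_SpEbc : SpEbc :=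
  e_bc

theorem zn_SpErelK : SpErelK :=
  e_relK

theorem zn_SpErelSN : SpErelSN :=
  e_relSN

theorem zn_SpEresN : SpEresN :=
  e_resN

theorem zn_SpEext : SpEext :=
  e_ext zn_SpExtQ

theorem zn_SpEpseudo : SpEpseudo :=
  e_pseudo

theorem zn_SpEgal : SpEgal :=
  e_galg

theorem zn_SpEnc : SpEnc :=
  e_nc

theorem zn_SpEgd : SpEgd :=
  e_gd

theorem zn_SpEdisc : SpEdisc :=
  e_disc zn_SpExtDisc

theorem zn_SpEdiscN : SpEdiscN :=
  e_discN

theorem zn_SpEmid : SpEmid :=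
  e_mid

theorem zn_SpAllDivN : SpAllDivN :=
  sp_alldivN zn_SpEbc zn_SpErelK zn_SpErelSN zn_SpEresN zn_SpEext zn_SpEpseudo zn_SpEgal zn_SpEnc
    zn_SpEgd zn_SpEdisc zn_SpEdiscN zn_SpEmid

theorem zn_SpStep : SpStep :=
  sp_step zn_SpGauss zn_SpTate zn_SpInf zn_SpKPl zn_SpGf zn_SpDown zn_SpCTN zn_SpAllDivN

theorem zn_SpTower : SpTower :=
  sp_tower zn_SpIso zn_SpTowC zn_SpFgStep zn_SpStep

theorem zn_SpSt : SpSt :=
  sp_st

theorem zn_SpNormPoly : SpNormPoly :=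
  norm_poly zn_SpSt

theorem zn_SpNormSimple : SpNormSimple :=
  norm_simple zn_SpNormPoly

theorem zn_SpNorm : SpNorm :=
  norm_all zn_SpNormSimple

theorem zn_SpPsi : SpPsi :=
  sp_psi zn_SpSt

theorem zn_SpResVal : SpResVal :=
  res_val zn_SpExtQ

theorem zn_SpComp : SpComp :=
  comp_val

theorem zn_SpW : SpW :=
  w_exists zn_SpExtQ zn_SpResVal zn_SpComp

theorem zn_SpNormDown : SpNormDown :=
  norm_down zn_SpNorm zn_SpPsi zn_SpExtDisc zn_SpW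

end Pool.Agent.H19.UT

namespace Pool.Agent.H20.UN

theorem final_allN  : SpFinalN :=
  final_xN zn_SpThm1 zn_SpTower zn_SpNormDown

end Pool.Agent.H20.UN
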